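import Pool.Agent.Lib_helper41.TK.Defs2
import Pool.Agent.Lib_helper41.TK.W.AC
import Pool.Agent.Lib_helper41.TK.W.TB
import Pool.Agent.Lib_helper41.TK.W.TF
import Pool.Agent.Lib_helper68.KSLF.FSE

/-! TK, block FB. -/

set_option autoImplicit false

namespace Pool.Agent.TK

open Pool.Agent.LEV Pool.Agent.LVB Pool.Agent.KSL
open Pool.Agent.LK (PQ)
open Pool.Agent.FG61 (mu phi cc ff AA Lam)
open Complex MeasureTheory Filter Topology UpperHalfPlane ModularGroup ProbabilityTheory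
open scoped MatrixGroups Modular ENNReal ModularForm ComplexConjugate ContDiff

section
variable {q : ℕ} [NeZero q]

theorem fb_val {χ : DirichletCharacter ℂ q} (h : χ ^ 2 = 1) (a : ZMod q) :
    χ a = 0 ∨ χ a = 1 ∨ χ a = -1 := by
  by_cases ha : IsUnit a
  · right
    have h1 : χ a ^ 2 = 1 := by
      have h2 := congrArg (fun ψ : DirichletCharacter ℂ q => ψ a) h
      simp only [MulChar.pow_apply' _ two_ne_zero, MulChar.one_apply ha] at h2
      exact h2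
    have h3 : (χ a - 1) * (χ a + 1) = 0 := by
      have : (χ a - 1) * (χ a + 1) = χ a ^ 2 - 1 := by ring
      rw [this, h1, sub_self]
    rcases mul_eq_zero.1 h3 with h4 | h4
    · exact Or.inl (sub_eq_zero.1 h4)
    · exact Or.inr (eq_neg_of_add_eq_zero_left h4)
  · exact Or.inl (χ.map_nonunit ha)

theorem fb_re {χ : DirichletCharacter ℂ q} (h : χ ^ 2 = 1) (a : ZMod q) :
    (((χ a).re : ℝ) : ℂ) = χ a := by
  rcases fb_val h a with h1 | h1 | h1 <;> rw [h1] <;> simp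

theorem fb_re_sq {χ : DirichletCharacter ℂ q} (h : χ ^ 2 = 1) (a : ZMod q) :
    (χ a).re ^ 2 ≤ 1 := by
  rcases fb_val h a with h1 | h1 | h1 <;> rw [h1] <;> simp

theorem fb_unit {χ : DirichletCharacter ℂ q} (h : χ ^ 2 = 1) {a : ZMod q} (ha : IsUnit a) :
    χ a = 1 ∨ χ a = -1 := by
  rcases fb_val h a with h1 | h1 | h1
  · exact absurd h1 (ha.map χ).ne_zero
  · exact Or.inl h1
  · exact Or.inr h1

theorem fb_uu {e : ℝ} (he : e ^ 2 = 1) (x : ℝ) : ∀ k : ℕ, Uu (e * x) k = e ^ k * Uu x k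
  | 0 => by simp [Uu]
  | 1 => by simp [Uu]
  | (k + 2) => by
    have h1 : e ^ k * Uu x k = e ^ (k + 2) * Uu x k := by rw [pow_add, he, mul_one]
    rw [Uu, Uu, fb_uu he x (k + 1), fb_uu he x k, h1]
    ring

theorem fb_isUnit {m : ℕ} (hmq : m.Coprime q) : IsUnit ((m : ℕ) : ZMod q) :=
  (ZMod.isUnit_iff_coprime m q).2 hmq

theorem fb_um {χ : DirichletCharacter ℂ q} (h : χ ^ 2 = 1) {m : ℕ} (hm : 0 < m)
    (hmq : m.Coprime q) (x : ℕ → ℝ) :
    Um m (fun p => (χ p).re * x p) = (χ m).re * Um m x := by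
  unfold Um
  have h1 : ∀ p ∈ m.primeFactors, Uu ((χ p).re * x p) (m.factorization p) =
      (χ p).re ^ (m.factorization p) * Uu (x p) (m.factorization p) := by
    intro p hp
    refine fb_uu ?_ _ _
    have h2 : p.Coprime q := hmq.coprime_dvd_left (Nat.dvd_of_mem_primeFactors hp)
    rcases fb_unit h (fb_isUnit h2) with h3 | h3 <;> rw [h3] <;> simp
  rw [Finset.prod_congr rfl h1, Finset.prod_mul_distrib]
  congr 1
  have h2 : ((∏ p ∈ m.primeFactors, (χ p).re ^ (m.factorization p) : ℝ) : ℂ) =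
      (((χ m).re : ℝ) : ℂ) := by
    push_cast
    rw [fb_re h]
    conv_rhs => rw [← Nat.prod_factorization_pow_eq_self hm.ne']
    rw [Finsupp.prod, Nat.support_factorization, Nat.cast_prod, map_prod]
    refine Finset.prod_congr rfl fun p _ => ?_
    rw [fb_re h, Nat.cast_pow, map_pow]
  exact_mod_cast h2

theorem fb_cc {d k : ℕ} (h : d.Coprime k) (m : ℕ) : cc d (k * m) = cc d m := by
  unfold cc
  rw [Nat.Coprime.gcd_mul_left_cancel_right m h.symm]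

theorem fb_rq {N k d : ℕ} (hN : 0 < N) (hk : 1 ≤ k) (hd : 1 ≤ d) :
    (k : ℝ) * rq N (q * (k * d)) = rq (N * q ^ 2) d := by
  have hq : (0 : ℝ) < q := by exact_mod_cast NeZero.pos q
  have hk0 : (0 : ℝ) < k := by exact_mod_cast hk
  have hd0 : (0 : ℝ) < d := by exact_mod_cast hd
  have hN0 : (0 : ℝ) < Real.sqrt N := Real.sqrt_pos.2 (by exact_mod_cast hN)
  have h1 : Real.sqrt ((N * q ^ 2 : ℕ) : ℝ) = Real.sqrt N * q := by
    push_cast
    rw [Real.sqrt_mul (Nat.cast_nonneg N), Real.sqrt_sq hq.le]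
  unfold rq
  rw [h1]
  push_cast
  field_simp

/-- the sum of the integrals over the half lines at the fractions with denominator `q k d` -/
noncomputable def fb_G {N : ℕ} (χ : DirichletCharacter ℂ q) (f : S2 N) (k d : ℕ) : ℂ :=
  χ (d : ℕ) / gaussSum χ ZMod.stdAddChar * ∑ j ∈ RR (q * (k * d)),
    χ j * ∫ v in Set.Ioi (rq N (q * (k * d))), ev f ((j : ℝ) / ((q * (k * d) : ℕ) : ℝ)) v

theorem fb_tau {χ : DirichletCharacter ℂ q} (hχ : PQ χ) : gaussSum χ ZMod.stdAddChar ≠ 0 := by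
  intro h
  have h1 := gauss_norm hχ
  rw [h, norm_zero, zero_pow two_ne_zero] at h1
  exact NeZero.ne q (by exact_mod_cast h1.symm)

theorem fb_hasG {N : ℕ} [Fact N.Prime] (f : S2 N) {χ : DirichletCharacter ℂ q} (hχ : PQ χ)
    {k d : ℕ} (hk : 1 ≤ k) (hkq : k.primeFactors ⊆ q.primeFactors) (hd : 1 ≤ d)
    (hdq : d.Coprime q) :
    HasSum (fun n : ℕ => if k ∣ n then ((k * ((χ ((n / k : ℕ) : ZMod q)).re * (cc d (n / k) *
      Real.exp (-2 * Real.pi * (n / k : ℕ) * rq (N * q ^ 2) d)) / (2 * Real.pi * n)) : ℝ) : ℂ) *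
        co f n else 0) (fb_G χ f k d) := by
  have hN : 0 < N := (Fact.out : N.Prime).pos
  have hc : 1 ≤ q * (k * d) := Nat.mul_pos (NeZero.pos q) (Nat.mul_pos hk hd)
  have hτ := fb_tau hχ
  have h1 : HasSum (fun n : ℕ => χ (d : ℕ) / gaussSum χ ZMod.stdAddChar *
      ∑ j ∈ RR (q * (k * d)), χ j * (co f n *
        ((Real.exp (-2 * Real.pi * n * rq N (q * (k * d))) / (2 * Real.pi * n) : ℝ) : ℂ) *
          GEL_e n ((j : ℝ) / ((q * (k * d) : ℕ) : ℝ)))) (fb_G χ f k d) := by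
    unfold fb_G
    refine (hasSum_sum fun j _ => (GEL_int f _ ?_).mul_left _).mul_left _
    exact fse_rq_pos hN hc
  convert h1 using 1
  funext n
  have h2 : ∑ j ∈ RR (q * (k * d)), χ j * (co f n *
        ((Real.exp (-2 * Real.pi * n * rq N (q * (k * d))) / (2 * Real.pi * n) : ℝ) : ℂ) *
          GEL_e n ((j : ℝ) / ((q * (k * d) : ℕ) : ℝ))) =
      co f n * ((Real.exp (-2 * Real.pi * n * rq N (q * (k * d))) / (2 * Real.pi * n) : ℝ) : ℂ) *
        ∑ j ∈ RR (q * (k * d)), χ j *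
          cexp (2 * Real.pi * Complex.I * (n : ℤ) *
            (((j : ℝ) / ((q * (k * d) : ℕ) : ℝ) : ℝ) : ℂ)) := by
    rw [Finset.mul_sum]
    refine Finset.sum_congr rfl fun j _ => ?_
    rw [GEL_e, Int.cast_natCast]
    ring
  rw [h2, char_sum hχ hk hkq hd hdq]
  by_cases hkn : k ∣ n
  · have hkn' : (k : ℤ) ∣ (n : ℤ) := Int.natCast_dvd_natCast.2 hkn
    rw [if_pos hkn, if_pos hkn']
    obtain ⟨m, rfl⟩ := hkn
    have hk0 : 0 < k := hk
    have h3 : k * m / k = m := Nat.mul_div_cancel_left m hk0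
    have h4 : (((k * m : ℕ) : ℤ) / (k : ℤ) : ℤ) = (m : ℤ) := by
      rw [← Int.natCast_div, h3]
    rw [h3, h4, Int.cast_natCast, Int.natAbs_natCast]
    have hdk : d.Coprime k := by
      refine Nat.Coprime.symm ?_
      rw [Nat.coprime_iff_gcd_eq_one] 
      by_contra hne
      obtain ⟨p, hp, hpg⟩ := Nat.exists_prime_and_dvd hne
      have hpk : p ∣ k := hpg.trans (Nat.gcd_dvd_left _ _)
      have hpd : p ∣ d := hpg.trans (Nat.gcd_dvd_right _ _)
      have hpq : p ∣ q := Nat.dvd_of_mem_primeFactors (hkq (Nat.mem_primeFactors.2 ⟨hp, hpk,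
        hk0.ne'⟩))
      exact Nat.not_coprime_of_dvd_of_dvd hp.one_lt hpd hpq hdq
    rw [fb_cc hdk]
    have h5 : (-2 : ℝ) * Real.pi * ((k * m : ℕ) : ℝ) * rq N (q * (k * d)) =
        -2 * Real.pi * m * rq (N * q ^ 2) d := by
      rw [← fb_rq hN hk hd]
      push_cast
      ring
    rw [h5]
    have h6 : χ (d : ℕ) * χ (d : ℕ) = 1 := by
      rcases fb_unit hχ.sq (fb_isUnit hdq) with h | h <;> rw [h] <;> norm_num
    have h7 := fb_re hχ.sq ((m : ℕ) : ZMod q)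
    push_cast
    rw [h7]
    have h8 : χ (d : ℕ) / gaussSum χ ZMod.stdAddChar * (co f (k * m) *
        (cexp (-2 * Real.pi * m * rq (N * q ^ 2) d) / (2 * Real.pi * (k * m))) *
          (k * χ (d : ℕ) * χ (m : ℕ) * gaussSum χ ZMod.stdAddChar * (cc d m : ℂ))) =
        (χ (d : ℕ) * χ (d : ℕ)) * (gaussSum χ ZMod.stdAddChar / gaussSum χ ZMod.stdAddChar) *
          (k * (χ (m : ℕ) * ((cc d m : ℂ) *
            cexp (-2 * Real.pi * m * rq (N * q ^ 2) d)) / (2 * Real.pi * (k * m))) *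
              co f (k * m)) := by
      ring
    rw [h8, h6, div_self hτ]
    ring
  · have hkn' : ¬ (k : ℤ) ∣ (n : ℤ) := fun h => hkn (Int.natCast_dvd_natCast.1 h)
    rw [if_neg hkn, if_neg hkn']
    ring

/-- the expansion of the part with index `k` -/
theorem fb_hasK {N : ℕ} [Fact N.Prime] (f : S2 N) {χ : DirichletCharacter ℂ q} (hχ : PQ χ)
    {k : ℕ} (hk : 1 ≤ k) (hkq : k.primeFactors ⊆ q.primeFactors) (Qd : ℕ) {w : ℕ → ℝ}
    (hw : ∀ d, 1 ≤ d → w d ≠ 0 → d.Coprime q) :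
    HasSum (fun n : ℕ => (((if k ∣ n then (χ ((n / k : ℕ) : ZMod q)).re *
        fse_b (N * q ^ 2) Qd w (n / k) else 0 : ℝ)) : ℂ) * (co f n / (Real.sqrt n : ℂ)))
      (4 * Real.pi * ∑ d ∈ (Finset.Icc 1 Qd).filter (fun d => d.Coprime q),
        (((1 / Real.sqrt k) * w d : ℝ) : ℂ) * fb_G χ f k d) := by
  have h1 : HasSum (fun n : ℕ => 4 * (Real.pi : ℂ) *
      ∑ d ∈ (Finset.Icc 1 Qd).filter (fun d => d.Coprime q),
        (((1 / Real.sqrt k) * w d : ℝ) : ℂ) * (if k ∣ n then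
          ((k * ((χ ((n / k : ℕ) : ZMod q)).re * (cc d (n / k) *
            Real.exp (-2 * Real.pi * (n / k : ℕ) * rq (N * q ^ 2) d)) / (2 * Real.pi * n)) : ℝ) :
              ℂ) * co f n else 0))
      (4 * Real.pi * ∑ d ∈ (Finset.Icc 1 Qd).filter (fun d => d.Coprime q),
        (((1 / Real.sqrt k) * w d : ℝ) : ℂ) * fb_G χ f k d) := by
    refine (hasSum_sum fun d hd => (fb_hasG f hχ hk hkq ?_ ?_).mul_left _).mul_left _
    · exact (Finset.mem_Icc.1 (Finset.mem_filter.1 hd).1).1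
    · exact (Finset.mem_filter.1 hd).2
  convert h1 using 1
  funext n
  by_cases hkn : k ∣ n
  · simp only [if_pos hkn]
    obtain ⟨m, rfl⟩ := hkn
    have hk0 : 0 < k := hk
    have h3 : k * m / k = m := Nat.mul_div_cancel_left m hk0
    rw [h3]
    rcases Nat.eq_zero_or_pos m with rfl | hm
    · rw [mul_zero, co_zero]
      simp
    · have hkr : (0 : ℝ) < k := by exact_mod_cast hk0
      have hmr : (0 : ℝ) < m := by exact_mod_cast hm
      have hsum : ∑ d ∈ (Finset.Icc 1 Qd).filter (fun d => d.Coprime q),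
          (((1 / Real.sqrt k) * w d : ℝ) : ℂ) *
          (((k * ((χ ((m : ℕ) : ZMod q)).re * (cc d m *
            Real.exp (-2 * Real.pi * (m : ℕ) * rq (N * q ^ 2) d)) /
              (2 * Real.pi * ((k * m : ℕ) : ℝ))) : ℝ) : ℂ) * co f (k * m)) =
          (((1 / Real.sqrt k) * (k * (χ ((m : ℕ) : ZMod q)).re / (2 * Real.pi * (k * m))) *
            Wt (N * q ^ 2) Qd w m : ℝ) : ℂ) * co f (k * m) := by
        have h4 : Wt (N * q ^ 2) Qd w m = ∑ d ∈ (Finset.Icc 1 Qd).filter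
            (fun d => d.Coprime q), w d * cc d m *
              Real.exp (-2 * Real.pi * m * rq (N * q ^ 2) d) := by
          unfold Wt
          symm
          refine Finset.sum_filter_of_ne fun d hd1 hd => hw d (Finset.mem_Icc.1 hd1).1
            fun h0 => hd ?_
          rw [h0]
          ring
        rw [h4, Finset.mul_sum, Complex.ofReal_sum, Finset.sum_mul]
        refine Finset.sum_congr rfl fun d _ => ?_
        rw [← mul_assoc, ← Complex.ofReal_mul]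
        congr 2
        push_cast
        ring
      rw [hsum]
      unfold fse_b
      have hs1 : Real.sqrt ((k * m : ℕ) : ℝ) = Real.sqrt k * Real.sqrt m := by
        push_cast
        exact Real.sqrt_mul hkr.le _
      have hsk : 0 < Real.sqrt k := Real.sqrt_pos.2 hkr
      have hsm : 0 < Real.sqrt m := Real.sqrt_pos.2 hmr
      have hsm2 : Real.sqrt m * Real.sqrt m = m := Real.mul_self_sqrt hmr.le
      have h5 : (χ ((m : ℕ) : ZMod q)).re * (2 * Wt (N * q ^ 2) Qd w m / Real.sqrt m) /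
          (Real.sqrt k * Real.sqrt m) =
          4 * Real.pi * ((1 / Real.sqrt k) * (k * (χ ((m : ℕ) : ZMod q)).re /
            (2 * Real.pi * (k * m))) * Wt (N * q ^ 2) Qd w m) := by
        have hpi := Real.pi_pos.ne'
        calc (χ ((m : ℕ) : ZMod q)).re * (2 * Wt (N * q ^ 2) Qd w m / Real.sqrt m) /
            (Real.sqrt k * Real.sqrt m) = 2 * (χ ((m : ℕ) : ZMod q)).re *
              Wt (N * q ^ 2) Qd w m / (Real.sqrt k * (Real.sqrt m * Real.sqrt m)) := by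
              field_simp
          _ = 2 * (χ ((m : ℕ) : ZMod q)).re * Wt (N * q ^ 2) Qd w m / (Real.sqrt k * m) := by
              rw [hsm2]
          _ = _ := by
              field_simp
              ring
      rw [hs1]
      calc (((χ ((m : ℕ) : ZMod q)).re * (2 * Wt (N * q ^ 2) Qd w m / Real.sqrt m) : ℝ) : ℂ) *
          (co f (k * m) / ((Real.sqrt k * Real.sqrt m : ℝ) : ℂ)) =
          (((χ ((m : ℕ) : ZMod q)).re * (2 * Wt (N * q ^ 2) Qd w m / Real.sqrt m) /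
            (Real.sqrt k * Real.sqrt m) : ℝ) : ℂ) * co f (k * m) := by
            rw [Complex.ofReal_div _ (Real.sqrt k * Real.sqrt m)]
            ring
        _ = _ := by
            rw [h5]
            push_cast
            ring
  · simp only [if_neg hkn]
    simp

/-- the truncated coefficients -/
noncomputable def fb_g (χ : DirichletCharacter ℂ q) (δ : ℝ) (n Qd : ℕ) (w : ℕ → ℝ) (k m : ℕ) :
    ℝ := if k ∣ m then (χ ((m / k : ℕ) : ZMod q)).re * fse_g δ n Qd w (m / k) else 0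

theorem fb_diff {δ : ℝ} {N : ℕ} [Fact N.Prime] {χ : DirichletCharacter ℂ q} (hχ : PQ χ)
    {f : S2 N} (hf : IsNew f) {k : ℕ} (hk : 1 ≤ k) (hkq : k.primeFactors ⊆ q.primeFactors)
    (hX : k * X1 δ (N * q ^ 2) < N) (Qd : ℕ) {w : ℕ → ℝ}
    (hw : ∀ d, 1 ≤ d → w d ≠ 0 → d.Coprime q) :
    4 * Real.pi * ∑ d ∈ (Finset.Icc 1 Qd).filter (fun d => d.Coprime q),
        (((1 / Real.sqrt k) * w d : ℝ) : ℂ) * fb_G χ f k d -
      ((Um k (la f) * ∑ m ∈ (Finset.Icc 1 (X1 δ (N * q ^ 2))).filter (fun m => m.Coprime q),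
        2 * Wt (N * q ^ 2) Qd w m / Real.sqrt m * Um m (fun p => (χ p).re * la f p) : ℝ) : ℂ) =
      ∑' n : ℕ, ((fb_g χ δ (N * q ^ 2) Qd w k n : ℝ) : ℂ) * (co f n / (Real.sqrt n : ℂ)) := by
  have h1 := fb_hasK f hχ hk hkq Qd hw
  have hreal : ∀ n, (co f n).im = 0 := fun n => new_real hf n
  have hla : ∀ n, co f n / ((Real.sqrt n : ℝ) : ℂ) = ((la f n : ℝ) : ℂ) := by
    intro n
    unfold la
    rw [Complex.ofReal_div]
    congr 1
    apply Complex.ext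
    · simp
    · simp [hreal n]
  have hk0 : 0 < k := hk
  have h2 : ((Um k (la f) * ∑ m ∈ (Finset.Icc 1 (X1 δ (N * q ^ 2))).filter
      (fun m => m.Coprime q), 2 * Wt (N * q ^ 2) Qd w m / Real.sqrt m *
        Um m (fun p => (χ p).re * la f p) : ℝ) : ℂ) =
      ∑ m ∈ Finset.Icc 1 (X1 δ (N * q ^ 2)), (((χ (m : ZMod q)).re *
        fse_b (N * q ^ 2) Qd w m : ℝ) : ℂ) *
          (co f (k * m) / (Real.sqrt ((k * m : ℕ) : ℝ) : ℂ)) := by
    rw [Finset.mul_sum, Complex.ofReal_sum]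
    have hz : ∀ m ∈ Finset.Icc 1 (X1 δ (N * q ^ 2)), (((χ (m : ZMod q)).re *
        fse_b (N * q ^ 2) Qd w m : ℝ) : ℂ) *
          (co f (k * m) / (Real.sqrt ((k * m : ℕ) : ℝ) : ℂ)) ≠ 0 → m.Coprime q := by
      intro m _ hne
      by_contra hc
      apply hne
      have : χ ((m : ℕ) : ZMod q) = 0 := χ.map_nonunit fun h => hc
        ((ZMod.isUnit_iff_coprime m q).1 h)
      rw [this]
      simp
    rw [← Finset.sum_filter_of_ne hz]
    refine Finset.sum_congr rfl fun m hm => ?_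
    obtain ⟨hm1, hmq⟩ := Finset.mem_filter.1 hm
    obtain ⟨hm1, hm2⟩ := Finset.mem_Icc.1 hm1
    have hkm : 0 < k * m := Nat.mul_pos hk0 hm1
    have hcop : (k * m).Coprime N := by
      rw [Nat.coprime_comm, (Fact.out : N.Prime).coprime_iff_not_dvd]
      intro hd
      have h3 := Nat.le_of_dvd hkm hd
      have h4 : k * m ≤ k * X1 δ (N * q ^ 2) := Nat.mul_le_mul_left k hm2
      omega
    have hkmc : k.Coprime m := by
      by_contra hne
      obtain ⟨p, hp, hpg⟩ := Nat.exists_prime_and_dvd (fun h => hne h)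
      have hpk : p ∣ k := hpg.trans (Nat.gcd_dvd_left _ _)
      have hpd : p ∣ m := hpg.trans (Nat.gcd_dvd_right _ _)
      have hpq : p ∣ q := Nat.dvd_of_mem_primeFactors (hkq (Nat.mem_primeFactors.2 ⟨hp, hpk,
        hk0.ne'⟩))
      exact Nat.not_coprime_of_dvd_of_dvd hp.one_lt hpd hpq hmq
    rw [hla (k * m), ← um_new hf hreal hkm hcop, HPO_um_mul hkmc, fb_um hχ.sq hm1 hmq,
      ← Complex.ofReal_mul]
    congr 1
    unfold fse_b
    ring
  have h3 : HasSum (fun n : ℕ => if k ∣ n ∧ n / k ∈ Finset.Icc 1 (X1 δ (N * q ^ 2)) then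
      (((χ ((n / k : ℕ) : ZMod q)).re * fse_b (N * q ^ 2) Qd w (n / k) : ℝ) : ℂ) *
        (co f n / (Real.sqrt n : ℂ)) else 0)
      ((Um k (la f) * ∑ m ∈ (Finset.Icc 1 (X1 δ (N * q ^ 2))).filter (fun m => m.Coprime q),
        2 * Wt (N * q ^ 2) Qd w m / Real.sqrt m * Um m (fun p => (χ p).re * la f p) : ℝ) : ℂ) := by
    rw [h2]
    have h4 := hasSum_sum_of_ne_finset_zero (L := SummationFilter.unconditional ℕ)
      (s := (Finset.Icc 1 (X1 δ (N * q ^ 2))).image (fun m => k * m))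
      (f := fun n : ℕ => if k ∣ n ∧ n / k ∈ Finset.Icc 1 (X1 δ (N * q ^ 2)) then
      (((χ ((n / k : ℕ) : ZMod q)).re * fse_b (N * q ^ 2) Qd w (n / k) : ℝ) : ℂ) *
        (co f n / (Real.sqrt n : ℂ)) else 0) (fun n hn => if_neg fun h => hn
          (Finset.mem_image.2 ⟨n / k, h.2, Nat.mul_div_cancel' h.1⟩))
    convert h4 using 1
    rw [Finset.sum_image fun a _ b _ h => Nat.eq_of_mul_eq_mul_left hk0 h]
    refine Finset.sum_congr rfl fun m hm => ?_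
    have h3 : k * m / k = m := Nat.mul_div_cancel_left m hk0
    rw [if_pos ⟨Dvd.intro m rfl, by rw [h3]; exact hm⟩, h3]
  have h4 := h1.sub h3
  rw [← h4.tsum_eq]
  refine tsum_congr fun n => ?_
  unfold fb_g fse_g
  by_cases ha : k ∣ n
  · by_cases hb : n / k ∈ Finset.Icc 1 (X1 δ (N * q ^ 2))
    · simp [ha, hb]
    · simp [ha, hb]
  · simp [ha]

/-- the functional in terms of the parts -/
theorem fb_gl {N : ℕ} (χ : DirichletCharacter ℂ q) (f : S2 N) {X Qd : ℕ} {v : ℕ → ℕ → ℝ}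
    (hv : ∀ k d, 1 ≤ d → v k d ≠ 0 → k ∈ QI q X ∧ d ∈ Finset.Icc 1 Qd ∧ d.Coprime q) :
    gl f (q * (X * Qd)) (tw χ v) = ∑ k ∈ QI q X,
      ∑ d ∈ (Finset.Icc 1 Qd).filter (fun d => d.Coprime q), (v k d : ℂ) * fb_G χ f k d := by
  unfold gl
  rw [← Finset.sum_product']
  symm
  have hq : 0 < q := NeZero.pos q
  have hQI : ∀ k ∈ QI q X, 1 ≤ k ∧ k ≤ X ∧ k.primeFactors ⊆ q.primeFactors := by
    intro k hk
    obtain ⟨h1, h2⟩ := Finset.mem_filter.1 hk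
    exact ⟨(Finset.mem_Icc.1 h1).1, (Finset.mem_Icc.1 h1).2, h2⟩
  refine Finset.sum_of_injOn (fun x : ℕ × ℕ => q * (x.1 * x.2)) ?_ ?_ ?_ ?_
  · rintro ⟨k, d⟩ h1 ⟨k', d'⟩ h2 h3
    rw [Finset.mem_coe, Finset.mem_product] at h1 h2
    obtain ⟨h1a, h1b⟩ := h1
    obtain ⟨h2a, h2b⟩ := h2
    obtain ⟨h1b, h1c⟩ := Finset.mem_filter.1 h1b
    obtain ⟨h2b, h2c⟩ := Finset.mem_filter.1 h2b
    have h4 : k * d = k' * d' := Nat.eq_of_mul_eq_mul_left hq h3
    obtain ⟨e1, e2⟩ := qs_mul hq (hQI k h1a).1 (hQI k h1a).2.2 (Finset.mem_Icc.1 h1b).1 h1c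
    obtain ⟨e3, e4⟩ := qs_mul hq (hQI k' h2a).1 (hQI k' h2a).2.2 (Finset.mem_Icc.1 h2b).1 h2c
    rw [h4] at e1 e2
    rw [e3] at e1
    rw [e4] at e2
    exact Prod.ext e1.symm e2.symm
  · rintro ⟨k, d⟩ h1
    rw [Finset.mem_coe, Finset.mem_product] at h1
    obtain ⟨h1a, h1b⟩ := h1
    obtain ⟨h1b, h1c⟩ := Finset.mem_filter.1 h1b
    obtain ⟨hk1, hk2, -⟩ := hQI k h1a
    obtain ⟨hd1, hd2⟩ := Finset.mem_Icc.1 h1b
    rw [Finset.mem_coe, Finset.mem_Icc]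
    exact ⟨Nat.mul_pos hq (Nat.mul_pos hk1 hd1),
      Nat.mul_le_mul_left q (Nat.mul_le_mul hk2 hd2)⟩
  · intro c hc hcn
    refine Finset.sum_eq_zero fun j _ => ?_
    suffices h : tw χ v c j = 0 by rw [h, zero_mul]
    unfold tw
    split_ifs with hqc
    · obtain ⟨m, rfl⟩ := hqc
      rw [Nat.mul_div_cancel_left m hq]
      have hm : 1 ≤ m := by
        rcases Nat.eq_zero_or_pos m with rfl | h
        · have := (Finset.mem_Icc.1 hc).1
          omega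
        · exact h
      obtain ⟨e1, -, -, -, e5⟩ := qs_qr (q := q) (m := m) hq hm
      have h0 : v (qs q m) (qr q m) = 0 := by
        by_contra hne
        obtain ⟨h1, h2, h3⟩ := hv _ _ e5 hne
        refine hcn ⟨(qs q m, qr q m), ?_, ?_⟩
        · rw [Finset.mem_coe, Finset.mem_product]
          exact ⟨h1, Finset.mem_filter.2 ⟨h2, h3⟩⟩
        · show q * (qs q m * qr q m) = q * m
          rw [e1]
      rw [h0]
      simp
    · rfl
  · rintro ⟨k, d⟩ h1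
    rw [Finset.mem_product] at h1
    obtain ⟨h1a, h1b⟩ := h1
    obtain ⟨h1b, h1c⟩ := Finset.mem_filter.1 h1b
    obtain ⟨e1, e2⟩ := qs_mul hq (hQI k h1a).1 (hQI k h1a).2.2 (Finset.mem_Icc.1 h1b).1 h1c
    show (v k d : ℂ) * fb_G χ f k d = ∑ j ∈ RR (q * (k * d)), tw χ v (q * (k * d)) j *
      ∫ v in Set.Ioi (rq N (q * (k * d))), ev f ((j : ℝ) / ((q * (k * d) : ℕ) : ℝ)) v
    unfold fb_G tw
    dsimp only at e1 e2
    rw [Finset.mul_sum, Finset.mul_sum]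
    refine Finset.sum_congr rfl fun j _ => ?_
    rw [if_pos (Dvd.intro (k * d) rfl), Nat.mul_div_cancel_left _ hq, e1, e2]
    ring

theorem fb_gsq {χ : DirichletCharacter ℂ q} (hχ : χ ^ 2 = 1) {δ : ℝ} (h0 : 0 < δ) {n Qd : ℕ}
    (hn : 2 ≤ n) {w : ℕ → ℝ} (hQ : (Qd : ℝ) * Real.sqrt n ≤ (n : ℝ) ^ (1 - 3 * δ / 4))
    (hS : ∑ d ∈ Finset.Icc 1 Qd, |w d| * ∑ e ∈ d.divisors, (e : ℝ) ≤ (n : ℝ) ^ 2) {k : ℕ}
    (hk : 1 ≤ k) (m : ℕ) :
    fb_g χ δ n Qd w k m ^ 2 ≤ 4 * (n : ℝ) ^ 4 * Real.exp (-(n : ℝ) ^ (δ / 4)) *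
      Real.exp (-(6 * m / ((k * n : ℕ) : ℝ))) := by
  have hrhs : 0 ≤ 4 * (n : ℝ) ^ 4 * Real.exp (-(n : ℝ) ^ (δ / 4)) *
      Real.exp (-(6 * m / ((k * n : ℕ) : ℝ))) := by positivity
  unfold fb_g
  split_ifs with h
  · obtain ⟨l, rfl⟩ := h
    have hk0 : (0 : ℝ) < k := by exact_mod_cast hk
    have hn0 : (0 : ℝ) < n := by exact_mod_cast (by omega : 0 < n)
    rw [Nat.mul_div_cancel_left l hk, mul_pow]
    have h1 := fse_gsq h0 hn hQ hS l
    have h2 : (6 : ℝ) * ((k * l : ℕ) : ℝ) / ((k * n : ℕ) : ℝ) = 6 * l / n := by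
      push_cast
      field_simp
    rw [h2]
    calc (χ ((l : ℕ) : ZMod q)).re ^ 2 * fse_g δ n Qd w l ^ 2 ≤
        1 * fse_g δ n Qd w l ^ 2 :=
          mul_le_mul_of_nonneg_right (fb_re_sq hχ _) (sq_nonneg _)
      _ = fse_g δ n Qd w l ^ 2 := one_mul _
      _ ≤ _ := h1
  · simpa using hrhs

end

/-- the functional is a Dirichlet polynomial up to a small error -/
theorem fs_tailC {δ : ℝ} (h0 : 0 < δ) (h1 : δ < 1 / 4) (X : ℕ) : ∃ ε₁ : ℝ, 0 < ε₁ ∧ ∀ ε₂ : ℝ,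
    0 < ε₂ → ε₂ ≤ ε₁ → ∃ (κ₁ : ℝ) (N₀ : ℕ), 0 < κ₁ ∧ ∀ (N : ℕ) [Fact N.Prime], N₀ ≤ N →
    ∀ {ι : Type} [Fintype ι] (f : ι → S2 N), Function.Injective f → (∀ i, IsNew (f i)) →
    ∀ (q : ℕ) [NeZero q] (χ : DirichletCharacter ℂ q), PQ χ → (q : ℝ) ≤ (N : ℝ) ^ κ₁ →
    ∀ a : ℕ → ℕ → ℝ, (∀ k ∈ QI q X, ShC q (zz (N * q ^ 2)) (KA ε₂ (N * q ^ 2)) (a k)) →
      ∑ i, om (f i) * ‖4 * Real.pi * gl (f i) (QC q δ ε₂ (N * q ^ 2) X)
          (tw χ (vv q δ ε₂ (N * q ^ 2) X a)) -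
        ((FX χ δ ε₂ (N * q ^ 2) X a (la (f i)) : ℝ) : ℂ)‖ ^ 2 ≤ 1 / N := by
  obtain ⟨C, hC, hls⟩ := ls_inf
  refine ⟨δ / 8, by positivity, fun ε₂ hε hε2 => ?_⟩
  obtain ⟨N₁, hN₁⟩ := ww_boundC h0 h1 hε
  obtain ⟨N₂, hN₂⟩ := fse_growth h0 (C * 576 * (X : ℝ) ^ 7)
  obtain ⟨N₃, hN₃⟩ : ∃ N₃ : ℕ, ∀ N : ℕ, N₃ ≤ N → (X : ℝ) < (N : ℝ) ^ (δ / 4) := by
    have h2 : Tendsto (fun N : ℕ => (N : ℝ) ^ (δ / 4)) atTop atTop :=
      (tendsto_rpow_atTop (by positivity)).comp tendsto_natCast_atTop_atTop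
    exact eventually_atTop.1 (h2.eventually_gt_atTop (X : ℝ))
  refine ⟨δ / 8, max N₁ (max N₂ N₃), by positivity, ?_⟩
  intro N _ hN ι _ f hinj hnew q _ χ hχ hqN a ha
  have hp : N.Prime := Fact.out
  have hN2 : 2 ≤ N := hp.two_le
  have hNr : (2 : ℝ) ≤ N := by exact_mod_cast hN2
  have hNr0 : (0 : ℝ) < N := by linarith
  have hq : 1 ≤ q := NeZero.pos q
  have hqr : (1 : ℝ) ≤ q := by exact_mod_cast hq
  set n : ℕ := N * q ^ 2 with hn
  have hNn : N ≤ n := Nat.le_mul_of_pos_right N (pow_pos hq 2)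
  have hn2 : 2 ≤ n := hN2.trans hNn
  have hNnr : (N : ℝ) ≤ n := by exact_mod_cast hNn
  have hnr0 : (0 : ℝ) < n := by linarith
  have hnr1 : (1 : ℝ) ≤ n := by linarith
  obtain ⟨hgr, h8⟩ := hN₂ n ((le_trans (le_trans (le_max_left _ _) (le_max_right _ _)) hN).trans
    hNn)
  have hX3 := hN₃ N (le_trans (le_trans (le_max_right _ _) (le_max_right _ _)) hN)
  obtain ⟨hs1, hs2, hs3⟩ := fse_size h0 h1 hε2 hn2 h8
  -- the length of the Dirichlet polynomial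
  have hXN : X * X1 δ n < N := by
    have hnpow : (n : ℝ) ≤ (N : ℝ) ^ (1 + δ / 4) := by
      have e1 : (n : ℝ) = N * (q : ℝ) ^ 2 := by rw [hn]; push_cast; ring
      have e2 : (q : ℝ) ^ 2 ≤ ((N : ℝ) ^ (δ / 8)) ^ 2 := pow_le_pow_left₀ (by linarith) hqN 2
      have e3 : ((N : ℝ) ^ (δ / 8)) ^ 2 = (N : ℝ) ^ (δ / 4) := by
        rw [← Real.rpow_natCast, ← Real.rpow_mul hNr0.le]
        congr 1
        push_cast
        ring
      rw [e1, Real.rpow_add hNr0, Real.rpow_one]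
      exact mul_le_mul_of_nonneg_left (e2.trans e3.le) hNr0.le
    have h2 : (X1 δ n : ℝ) ≤ (N : ℝ) ^ (1 - δ / 4) := by
      calc (X1 δ n : ℝ) ≤ (n : ℝ) ^ (1 - δ / 2) := Nat.floor_le (by positivity)
        _ ≤ ((N : ℝ) ^ (1 + δ / 4)) ^ (1 - δ / 2) :=
            Real.rpow_le_rpow hnr0.le hnpow (by linarith)
        _ = (N : ℝ) ^ ((1 + δ / 4) * (1 - δ / 2)) := by rw [← Real.rpow_mul hNr0.le]
        _ ≤ (N : ℝ) ^ (1 - δ / 4) :=
            Real.rpow_le_rpow_of_exponent_le (by linarith) (by nlinarith)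
    have h3 : (X : ℝ) * X1 δ n < N := by
      calc (X : ℝ) * X1 δ n ≤ X * (N : ℝ) ^ (1 - δ / 4) :=
            mul_le_mul_of_nonneg_left h2 (Nat.cast_nonneg _)
        _ < (N : ℝ) ^ (δ / 4) * (N : ℝ) ^ (1 - δ / 4) :=
            mul_lt_mul_of_pos_right hX3 (by positivity)
        _ = N := by
            rw [← Real.rpow_add hNr0]
            have : δ / 4 + (1 - δ / 4) = 1 := by ring
            rw [this, Real.rpow_one]
    exact_mod_cast h3
  have hQI : ∀ k ∈ QI q X, 1 ≤ k ∧ k ≤ X ∧ k.primeFactors ⊆ q.primeFactors := by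
    intro k hk
    obtain ⟨h1, h2⟩ := Finset.mem_filter.1 hk
    exact ⟨(Finset.mem_Icc.1 h1).1, (Finset.mem_Icc.1 h1).2, h2⟩
  set Qd := QQ δ ε₂ n with hQd
  set w : ℕ → ℕ → ℝ := fun k => wwC q δ ε₂ n (a k) with hw
  have hwsupp : ∀ k ∈ QI q X, ∀ d, 1 ≤ d → w k d ≠ 0 → 1 ≤ d ∧ d ≤ Qd ∧ d.Coprime q :=
    fun k hk d hd0 hd => wAC_supp (ha k hk).sup hd0 hd
  have hS : ∀ k ∈ QI q X, ∑ d ∈ Finset.Icc 1 Qd, |w k d| * ∑ e ∈ d.divisors, (e : ℝ) ≤
      (n : ℝ) ^ 2 := by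
    intro k hk
    obtain ⟨-, hW⟩ := hN₁ n ((le_trans (le_max_left _ _) hN).trans hNn) q hq (a k) (ha k hk)
    refine (hW Qd hs2).trans ?_
    have h3 : (n : ℝ) ^ (5 * ε₂) ≤ n := by
      calc (n : ℝ) ^ (5 * ε₂) ≤ (n : ℝ) ^ (1 : ℝ) :=
            Real.rpow_le_rpow_of_exponent_le (by linarith) (by linarith)
        _ = n := Real.rpow_one _
    have h4 : (Qd : ℝ) ≤ n := by exact_mod_cast hs2
    calc (n : ℝ) ^ (5 * ε₂) * Qd ≤ n * n :=
          mul_le_mul h3 h4 (Nat.cast_nonneg _) hnr0.le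
      _ = (n : ℝ) ^ 2 := by ring
  set E := Real.exp (-(n : ℝ) ^ (δ / 4)) with hE
  have hE0 : 0 < E := Real.exp_pos _
  -- the error of the index `k`
  set er' : ℕ → ι → ℂ := fun k i => 4 * Real.pi *
      ∑ d ∈ (Finset.Icc 1 Qd).filter (fun d => d.Coprime q),
        (((1 / Real.sqrt k) * w k d : ℝ) : ℂ) * fb_G χ (f i) k d -
      ((Um k (la (f i)) * ∑ m ∈ (Finset.Icc 1 (X1 δ n)).filter (fun m => m.Coprime q),
        2 * Wt n Qd (w k) m / Real.sqrt m * Um m (fun p => (χ p).re * la (f i) p) : ℝ) : ℂ)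
    with her
  have herr : ∀ k ∈ QI q X, ∑ i, om (f i) * ‖er' k i‖ ^ 2 ≤
      C * (576 * (X : ℝ) ^ 5 * (n : ℝ) ^ 9 * E) := by
    intro k hk
    obtain ⟨hk1, hkX, hkq⟩ := hQI k hk
    have hkn1 : 1 ≤ k * n := Nat.mul_pos hk1 (by omega)
    have hkr : (k : ℝ) ≤ X := by exact_mod_cast hkX
    have hkr0 : (0 : ℝ) < k := by exact_mod_cast hk1
    have hg := fb_gsq (q := q) (χ := χ) hχ.sq h0 hn2 hs1 (hS k hk) hk1
    obtain ⟨hgeo1, hgeo2⟩ := fse_geo (N := k * n) hkn1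
    have hterm : ∀ m : ℕ, fb_g χ δ n Qd (w k) k m ^ 2 * (1 + (m : ℝ)) ^ 4 ≤
        4 * (n : ℝ) ^ 4 * E * ((1 + (m : ℝ)) ^ 4 *
          Real.exp (-(6 * m / ((k * n : ℕ) : ℝ)))) := by
      intro m
      calc fb_g χ δ n Qd (w k) k m ^ 2 * (1 + (m : ℝ)) ^ 4 ≤
          4 * (n : ℝ) ^ 4 * E * Real.exp (-(6 * m / ((k * n : ℕ) : ℝ))) * (1 + (m : ℝ)) ^ 4 :=
            mul_le_mul_of_nonneg_right (hg m) (by positivity)
        _ = _ := by ring
    have hsr := hgeo1.mul_left (4 * (n : ℝ) ^ 4 * E)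
    have hsum1 : Summable (fun m : ℕ => fb_g χ δ n Qd (w k) k m ^ 2 * (1 + (m : ℝ)) ^ 4) :=
      Summable.of_nonneg_of_le (fun m => by positivity) hterm hsr
    have hterm2 : ∀ m : ℕ, fb_g χ δ n Qd (w k) k m ^ 2 * (1 + (m : ℝ) / N) ^ 2 ≤
        fb_g χ δ n Qd (w k) k m ^ 2 * (1 + (m : ℝ)) ^ 4 := by
      intro m
      refine mul_le_mul_of_nonneg_left ?_ (sq_nonneg _)
      have h3 : (m : ℝ) / N ≤ m := div_le_self (Nat.cast_nonneg m) (by linarith)
      have h4 : (0 : ℝ) ≤ m / N := by positivity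
      calc (1 + (m : ℝ) / N) ^ 2 ≤ (1 + (m : ℝ)) ^ 2 :=
            pow_le_pow_left₀ (by positivity) (by linarith) 2
        _ ≤ (1 + (m : ℝ)) ^ 4 := pow_le_pow_right₀ (by linarith [Nat.cast_nonneg (α := ℝ) m])
            (by norm_num)
    have hsum2 : Summable (fun m : ℕ => fb_g χ δ n Qd (w k) k m ^ 2 * (1 + (m : ℝ) / N) ^ 2) :=
      Summable.of_nonneg_of_le (fun m => by positivity) hterm2 hsum1
    have hT : ∑' m : ℕ, fb_g χ δ n Qd (w k) k m ^ 2 * (1 + (m : ℝ) / N) ^ 2 ≤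
        576 * (X : ℝ) ^ 5 * (n : ℝ) ^ 9 * E := by
      calc ∑' m : ℕ, fb_g χ δ n Qd (w k) k m ^ 2 * (1 + (m : ℝ) / N) ^ 2 ≤
          ∑' m : ℕ, 4 * (n : ℝ) ^ 4 * E * ((1 + (m : ℝ)) ^ 4 *
            Real.exp (-(6 * m / ((k * n : ℕ) : ℝ)))) :=
            hsum2.tsum_le_tsum (fun m => (hterm2 m).trans (hterm m)) hsr
        _ = 4 * (n : ℝ) ^ 4 * E * ∑' m : ℕ, ((1 + (m : ℝ)) ^ 4 *
            Real.exp (-(6 * m / ((k * n : ℕ) : ℝ)))) := tsum_mul_left
        _ ≤ 4 * (n : ℝ) ^ 4 * E * (144 * (((k * n : ℕ) : ℝ)) ^ 5) :=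
            mul_le_mul_of_nonneg_left hgeo2 (by positivity)
        _ = 576 * (k : ℝ) ^ 5 * (n : ℝ) ^ 9 * E := by
            push_cast
            ring
        _ ≤ 576 * (X : ℝ) ^ 5 * (n : ℝ) ^ 9 * E := by
            have h3 : (k : ℝ) ^ 5 ≤ (X : ℝ) ^ 5 := pow_le_pow_left₀ hkr0.le hkr 5
            have h4 : 0 ≤ (n : ℝ) ^ 9 * E := by positivity
            nlinarith [mul_le_mul_of_nonneg_right h3 h4]
    have hmain := hls N f (fun i => new_ne_zero (hnew i))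
      (fun i j hij => new_orth (hnew i) (hnew j) (fun h => hij (hinj h)))
      (fb_g χ δ n Qd (w k) k) hsum1
    have e1 : ∑ i, om (f i) * ‖er' k i‖ ^ 2 =
        1 / (4 * Real.pi) * ∑ i, 1 / nr (f i) *
          ‖∑' m : ℕ, ((fb_g χ δ n Qd (w k) k m : ℝ) : ℂ) *
            (co (f i) m / (Real.sqrt m : ℂ))‖ ^ 2 := by
      rw [Finset.mul_sum]
      refine Finset.sum_congr rfl fun i _ => ?_
      have hkX1 : k * X1 δ n < N := lt_of_le_of_lt (Nat.mul_le_mul_right _ hkX) hXN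
      have h3 := fb_diff (δ := δ) hχ (hnew i) hk1 hkq hkX1 Qd
        (fun d hd0 hd => (hwsupp k hk d hd0 hd).2.2)
      rw [her]
      dsimp only
      rw [h3]
      unfold om
      rw [← one_div_mul_one_div]
      ring
    rw [e1]
    have hpi : 1 / (4 * Real.pi) ≤ 1 := by
      rw [div_le_one (by positivity)]
      linarith [Real.pi_gt_three]
    have hpi0 : 0 ≤ 1 / (4 * Real.pi) := by positivity
    have hR0 : 0 ≤ C * (576 * (X : ℝ) ^ 5 * (n : ℝ) ^ 9 * E) := by positivity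
    calc 1 / (4 * Real.pi) * ∑ i, 1 / nr (f i) *
          ‖∑' m : ℕ, ((fb_g χ δ n Qd (w k) k m : ℝ) : ℂ) *
            (co (f i) m / (Real.sqrt m : ℂ))‖ ^ 2
        ≤ 1 / (4 * Real.pi) * (C * (576 * (X : ℝ) ^ 5 * (n : ℝ) ^ 9 * E)) :=
          mul_le_mul_of_nonneg_left (hmain.trans (mul_le_mul_of_nonneg_left hT hC.le)) hpi0
      _ ≤ 1 * (C * (576 * (X : ℝ) ^ 5 * (n : ℝ) ^ 9 * E)) :=
          mul_le_mul_of_nonneg_right hpi hR0
      _ = _ := one_mul _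
  -- the decomposition
  have hdec : ∀ i, 4 * Real.pi * gl (f i) (QC q δ ε₂ n X) (tw χ (vv q δ ε₂ n X a)) -
      ((FX χ δ ε₂ n X a (la (f i)) : ℝ) : ℂ) = ∑ k ∈ QI q X, er' k i := by
    intro i
    have h3 : gl (f i) (QC q δ ε₂ n X) (tw χ (vv q δ ε₂ n X a)) = ∑ k ∈ QI q X,
        ∑ d ∈ (Finset.Icc 1 Qd).filter (fun d => d.Coprime q),
          (vv q δ ε₂ n X a k d : ℂ) * fb_G χ (f i) k d := by
      refine fb_gl χ (f i) fun k d hd0 hkd => ?_
      unfold vv at hkd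
      split_ifs at hkd with hk
      · have h4 : w k d ≠ 0 := fun h => hkd (by rw [hw] at h; dsimp only at h; rw [h, mul_zero])
        obtain ⟨h5, h6, h7⟩ := hwsupp k hk d hd0 h4
        exact ⟨hk, Finset.mem_Icc.2 ⟨h5, h6⟩, h7⟩
      · exact absurd rfl hkd
    rw [h3, Finset.mul_sum]
    unfold FX
    rw [Complex.ofReal_sum, ← Finset.sum_sub_distrib]
    refine Finset.sum_congr rfl fun k hk => ?_
    rw [her]
    dsimp only
    congr 1
    congr 1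
    refine Finset.sum_congr rfl fun d _ => ?_
    unfold vv
    rw [if_pos hk]
  have hcard : ((QI q X).card : ℝ) ≤ X := by
    have h3 : (QI q X).card ≤ (Finset.Icc 1 X).card := Finset.card_filter_le _ _
    rw [Nat.card_Icc, Nat.add_sub_cancel] at h3
    exact_mod_cast h3
  have hX0 : (0 : ℝ) ≤ X := Nat.cast_nonneg X
  have hom : ∀ i, 0 ≤ om (f i) := fun i => by
    unfold om
    have := nr_pos (new_ne_zero (hnew i))
    positivity
  calc ∑ i, om (f i) * ‖4 * Real.pi * gl (f i) (QC q δ ε₂ n X) (tw χ (vv q δ ε₂ n X a)) -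
        ((FX χ δ ε₂ n X a (la (f i)) : ℝ) : ℂ)‖ ^ 2
      ≤ ∑ i, om (f i) * (X * ∑ k ∈ QI q X, ‖er' k i‖ ^ 2) := by
        refine Finset.sum_le_sum fun i _ => mul_le_mul_of_nonneg_left ?_ (hom i)
        rw [hdec i]
        calc ‖∑ k ∈ QI q X, er' k i‖ ^ 2 ≤ (∑ k ∈ QI q X, ‖er' k i‖) ^ 2 :=
              pow_le_pow_left₀ (norm_nonneg _) (norm_sum_le _ _) 2
          _ ≤ (QI q X).card * ∑ k ∈ QI q X, ‖er' k i‖ ^ 2 := sq_sum_le_card_mul_sum_sq
          _ ≤ X * ∑ k ∈ QI q X, ‖er' k i‖ ^ 2 :=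
              mul_le_mul_of_nonneg_right hcard (Finset.sum_nonneg fun _ _ => sq_nonneg _)
    _ = X * ∑ k ∈ QI q X, ∑ i, om (f i) * ‖er' k i‖ ^ 2 := by
        rw [Finset.sum_comm, Finset.mul_sum]
        refine Finset.sum_congr rfl fun i _ => ?_
        rw [Finset.mul_sum, Finset.mul_sum, Finset.mul_sum]
        refine Finset.sum_congr rfl fun k _ => ?_
        ring
    _ ≤ X * ∑ k ∈ QI q X, C * (576 * (X : ℝ) ^ 5 * (n : ℝ) ^ 9 * E) :=
        mul_le_mul_of_nonneg_left (Finset.sum_le_sum herr) hX0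
    _ = X * ((QI q X).card * (C * (576 * (X : ℝ) ^ 5 * (n : ℝ) ^ 9 * E))) := by
        rw [Finset.sum_const, nsmul_eq_mul]
    _ ≤ X * (X * (C * (576 * (X : ℝ) ^ 5 * (n : ℝ) ^ 9 * E))) := by
        refine mul_le_mul_of_nonneg_left (mul_le_mul_of_nonneg_right hcard ?_) hX0
        positivity
    _ ≤ 1 / N := by
        rw [le_div_iff₀ hNr0]
        have hA : 0 ≤ X * (X * (C * (576 * (X : ℝ) ^ 5 * (n : ℝ) ^ 9 * E))) := by positivity
        calc X * (X * (C * (576 * (X : ℝ) ^ 5 * (n : ℝ) ^ 9 * E))) * N ≤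
            X * (X * (C * (576 * (X : ℝ) ^ 5 * (n : ℝ) ^ 9 * E))) * n :=
              mul_le_mul_of_nonneg_left hNnr hA
          _ = C * 576 * (X : ℝ) ^ 7 * (n : ℝ) ^ 10 * E := by ring
          _ ≤ 1 := hgr

end Pool.Agent.TK
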